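import Mathlib

/-!
# Sign choices in divergent series of vectors `(n ^ (-α_1), …, n ^ (-α_d))`: dimension
-/

set_option autoImplicit false

open Filter Topology MeasureTheory Set
open scoped NNReal ENNReal

namespace Pool.Agent.Q3.SgnDim

/-- The space `Ω` of the sign sequences `ε_1, ε_2, …`: the value at `n` is `true` if
`ε_{n+1} = 1` and `false` if `ε_{n+1} = -1`. -/
def Om : Type := ℕ → Bool

/-- the sign of a boolean value: `true` is `1` and `false` is `-1` -/
def sg (b : Bool) : ℝ := if b then 1 else -1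

/-- the least `n ≥ 1` with `ε_n ≠ η_n` (the value of `ε_n` is `x (n - 1)`) -/
noncomputable def firstDiff (x y : Om) : ℕ := sInf {n : ℕ | 1 ≤ n ∧ x (n - 1) ≠ y (n - 1)}

/-- the metric `ρ (ε, η) = 2 ^ (- min {n : ε_n ≠ η_n})` for `ε ≠ η` -/
noncomputable def rho (x y : Om) : ℝ :=
  open Classical in if x = y then 0 else (1 / 2 : ℝ) ^ firstDiff x y

lemma fd_mem {x y : Om} (h : x ≠ y) :
    1 ≤ firstDiff x y ∧ x (firstDiff x y - 1) ≠ y (firstDiff x y - 1) := by
  have hne : {n : ℕ | 1 ≤ n ∧ x (n - 1) ≠ y (n - 1)}.Nonempty := by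
    by_contra hcon
    apply h
    funext n
    by_contra hn
    exact hcon ⟨n + 1, by omega, by simpa using hn⟩
  exact Nat.sInf_mem hne

lemma agree_of_lt_fd {x y : Om} {i : ℕ} (h : i + 1 < firstDiff x y) : x i = y i := by
  by_contra hcon
  have : firstDiff x y ≤ i + 1 := Nat.sInf_le ⟨by omega, by simpa using hcon⟩
  omega

lemma rho_self (x : Om) : rho x x = 0 := by simp [rho]

lemma rho_of_ne {x y : Om} (h : x ≠ y) : rho x y = (1 / 2 : ℝ) ^ firstDiff x y := by
  simp [rho, h]

lemma fd_comm (x y : Om) : firstDiff x y = firstDiff y x := by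
  unfold firstDiff
  congr 1
  ext n
  simp only [Set.mem_ofPred_eq, ne_comm]

lemma rho_comm (x y : Om) : rho x y = rho y x := by
  by_cases h : x = y
  · subst h; rfl
  · rw [rho_of_ne h, rho_of_ne (Ne.symm h), fd_comm]

lemma agree_of_rho {x y : Om} {N : ℕ} (h : rho x y < (1 / 2 : ℝ) ^ N) : ∀ i < N, x i = y i := by
  intro i hi
  by_cases hxy : x = y
  · rw [hxy]
  · rw [rho_of_ne hxy] at h
    have h1 : N < firstDiff x y := (pow_lt_pow_iff_right_of_lt_one₀ (by norm_num) (by norm_num)).1 h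
    exact agree_of_lt_fd (by omega)

lemma rho_le_of_agree {x y : Om} {N : ℕ} (h : ∀ i < N, x i = y i) :
    rho x y ≤ (1 / 2 : ℝ) ^ (N + 1) := by
  by_cases hxy : x = y
  · subst hxy
    rw [rho_self]
    positivity
  · rw [rho_of_ne hxy]
    obtain ⟨h1, h2⟩ := fd_mem hxy
    apply pow_le_pow_of_le_one (by norm_num) (by norm_num)
    by_contra hcon
    exact h2 (h _ (by omega))

lemma rho_ultra (x y z : Om) : rho x z ≤ max (rho x y) (rho y z) := by
  by_contra hcon
  push Not at hcon
  obtain ⟨h1, h2⟩ := max_lt_iff.1 hcon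
  by_cases hxz : x = z
  · subst hxz
    rw [rho_self] at h1
    have : 0 ≤ rho x y := by unfold rho; split_ifs <;> positivity
    linarith
  · rw [rho_of_ne hxz] at h1 h2
    obtain ⟨h3, h4⟩ := fd_mem hxz
    exact h4 ((agree_of_rho h1 _ (by omega)).trans (agree_of_rho h2 _ (by omega)))

lemma rho_nonneg (x y : Om) : 0 ≤ rho x y := by unfold rho; split_ifs <;> positivity

noncomputable instance : MetricSpace Om where
  dist := rho
  dist_self := rho_self
  dist_comm := rho_comm
  dist_triangle x y z := (rho_ultra x y z).trans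
    (max_le (le_add_of_nonneg_right (rho_nonneg _ _)) (le_add_of_nonneg_left (rho_nonneg _ _)))
  eq_of_dist_eq_zero {x y} h := by
    by_contra hcon
    change rho x y = 0 at h
    rw [rho_of_ne hcon] at h
    have : (0 : ℝ) < (1 / 2 : ℝ) ^ firstDiff x y := by positivity
    linarith

lemma dist_eq (x y : Om) : dist x y = rho x y := rfl

/-! ### the upper bound -/

lemma ediam_cyl (n : ℕ) (c : Fin n → Bool) :
    Metric.ediam {x : Om | ∀ i : Fin n, x i = c i} ≤ (1 / 2 : ℝ≥0∞) ^ (n + 1) := by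
  apply Metric.ediam_le
  intro x hx y hy
  rw [edist_dist, dist_eq]
  have h : rho x y ≤ (1 / 2 : ℝ) ^ (n + 1) := rho_le_of_agree fun i hi => by
    have h1 := hx ⟨i, hi⟩
    have h2 := hy ⟨i, hi⟩
    simp only at h1 h2
    rw [h1, h2]
  calc ENNReal.ofReal (rho x y) ≤ ENNReal.ofReal ((1 / 2 : ℝ) ^ (n + 1)) :=
        ENNReal.ofReal_le_ofReal h
    _ = (1 / 2 : ℝ≥0∞) ^ (n + 1) := by
        rw [ENNReal.ofReal_pow (by norm_num)]
        congr 1
        rw [ENNReal.ofReal_div_of_pos (by norm_num)]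
        simp

theorem dimH_le_one (s : Set Om) : dimH s ≤ 1 := by
  borelize Om
  have key : μH[((1 : ℝ≥0) : ℝ)] (univ : Set Om) ≤ 1 := by
    have h0 := Measure.hausdorffMeasure_le_liminf_sum (l := atTop) (ι := fun n : ℕ => (Fin n → Bool))
      ((1 : ℝ≥0) : ℝ) (univ : Set Om) (fun n : ℕ => ((1 / 2 : ℝ≥0∞) ^ (n + 1)))
      (by
        have h1 : Tendsto (fun n : ℕ => (1 / 2 : ℝ≥0∞) ^ n) atTop (𝓝 0) :=
          ENNReal.tendsto_pow_atTop_nhds_zero_of_lt_one (by
            rw [one_div]; exact ENNReal.inv_lt_one.2 (by norm_num))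
        exact h1.comp (tendsto_add_atTop_nat 1))
      (fun n c => {x : Om | ∀ i : Fin n, x i = c i})
      (Eventually.of_forall fun n c => ediam_cyl n c)
      (Eventually.of_forall fun n x _ => mem_iUnion.2 ⟨fun i => x i, fun i => rfl⟩)
    refine h0.trans ?_
    have h2 : ∀ n : ℕ, ∑ c : Fin n → Bool,
        Metric.ediam {x : Om | ∀ i : Fin n, x i = c i} ^ (((1 : ℝ≥0) : ℝ)) ≤ 1 := by
      intro n
      calc ∑ c : Fin n → Bool, Metric.ediam {x : Om | ∀ i : Fin n, x i = c i} ^ (((1 : ℝ≥0) : ℝ))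
          ≤ ∑ _c : Fin n → Bool, (1 / 2 : ℝ≥0∞) ^ (n + 1) := by
            apply Finset.sum_le_sum
            intro c _
            rw [NNReal.coe_one, ENNReal.rpow_one]
            exact ediam_cyl n c
        _ = 2 ^ n * (1 / 2 : ℝ≥0∞) ^ (n + 1) := by
            simp [Finset.sum_const, Finset.card_univ]
        _ ≤ 2 ^ n * (1 / 2 : ℝ≥0∞) ^ n := by
            gcongr 2 ^ n * ?_
            exact pow_le_pow_right_of_le_one' (by simp) (by omega)
        _ = 1 := by
            rw [← mul_pow, one_div, ENNReal.mul_inv_cancel (by norm_num) (by norm_num), one_pow]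
    calc _ ≤ liminf (fun _ : ℕ => (1 : ℝ≥0∞)) atTop :=
          liminf_le_liminf (Eventually.of_forall h2)
      _ = 1 := liminf_const 1
  refine (dimH_mono (subset_univ s)).trans ?_
  exact_mod_cast dimH_le_of_hausdorffMeasure_ne_top (d := 1) (ne_top_of_le_ne_top (by simp) key)

/-! ### the lower bound: combinatorics -/

section comb
variable {k : ℕ}

/-- the positions of a window which are not reserved -/
def PP (k : ℕ) : Finset ℕ := (Finset.range (k * k)).filter (fun p => ¬ k ∣ p + 1)

lemma card_PP (hk : 0 < k) : (PP k).card = k * k - k := by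
  have h1 : ((Finset.range (k * k)).filter (fun p => k ∣ p + 1)).card = k := by
    rw [Nat.card_multiples, Nat.mul_div_cancel _ hk]
  have h2 := Finset.card_filter_add_card_filter_not (s := Finset.range (k * k))
    (fun p => k ∣ p + 1)
  rw [h1, Finset.card_range] at h2
  unfold PP
  omega

/-- half the number of these positions -/
def hh (k : ℕ) : ℕ := (k * k - k) / 2

lemma two_hh (k : ℕ) : 2 * hh k = k * k - k := by
  unfold hh
  apply Nat.mul_div_cancel'
  rcases k with _ | k
  · simp
  · have : (k + 1) * (k + 1) - (k + 1) = k * (k + 1) := by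
      rw [Nat.sub_eq_of_eq_add]; ring
    rw [this]
    exact (Nat.even_mul_succ_self k).two_dvd

lemma two_pow_le (hk : 4 ≤ k) : 2 ^ (k * k - 3 * k) ≤ ((PP k).powersetCard (hh k)).card := by
  rw [Finset.card_powersetCard, card_PP (by omega), ← two_hh k, ← Nat.centralBinom_eq_two_mul_choose]
  have hh0 : 0 < hh k := by
    have h1 := two_hh k
    have h2 : 4 * k ≤ k * k := Nat.mul_le_mul_right _ hk
    omega
  have h1 := Nat.four_pow_le_two_mul_self_mul_centralBinom (hh k) hh0
  rw [two_hh k] at h1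
  have h2 : (4 : ℕ) ^ hh k = 2 ^ (k * k - k) := by
    rw [show (4 : ℕ) = 2 ^ 2 by norm_num, ← pow_mul, two_hh]
  rw [h2] at h1
  have h3 : k * k - k ≤ 2 ^ (2 * k) := by
    have h4 : k < 2 ^ k := Nat.lt_two_pow_self
    calc k * k - k ≤ k * k := Nat.sub_le _ _
      _ ≤ 2 ^ k * 2 ^ k := Nat.mul_le_mul h4.le h4.le
      _ = 2 ^ (2 * k) := by rw [← pow_add]; congr 1; ring
  have h5 : 2 ^ (k * k - k) = 2 ^ (2 * k) * 2 ^ (k * k - 3 * k) := by
    rw [← pow_add]
    congr 1
    have h2 : 4 * k ≤ k * k := Nat.mul_le_mul_right _ hk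
    omega
  rw [h5] at h1
  have h6 : 2 ^ (2 * k) * 2 ^ (k * k - 3 * k) ≤ 2 ^ (2 * k) * (hh k).centralBinom :=
    h1.trans (Nat.mul_le_mul_right _ h3)
  exact Nat.le_of_mul_le_mul_left h6 (by positivity)

/-- a sequence is balanced if it has as many `1` as `-1` on the free positions of each window -/
def Balanced (k : ℕ) (u : ℕ → Bool) : Prop :=
  ∀ j : ℕ, ((PP k).filter (fun p => u (j * (k * k) + p) = true)).card = hh k

/-- the free positions with value `1` in a window -/
def TT (k : ℕ) (x : ℕ → Bool) (j : ℕ) : Finset ℕ :=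
  (PP k).filter (fun p => x (j * (k * k) + p) = true)

theorem lower_dim (hk : 4 ≤ k) (E : Set Om)
    (hE : ∀ u : ℕ → Bool, Balanced k u → ∃ x ∈ E, ∀ n, ¬ k ∣ n + 1 → x n = u n) :
    ENNReal.ofReal (1 - 3 / k) ≤ dimH E := by
  classical
  set M : ℕ := k * k with hM
  set r : ℕ := k * k - 3 * k with hr
  have hk0 : 0 < k := by omega
  have h4k : 4 * k ≤ k * k := Nat.mul_le_mul_right _ hk
  have hr0 : 0 < r := by omega
  have hM0 : 0 < M := by omega
  -- the embedding
  have hcard : Fintype.card (Fin r → Fin 2) ≤ Fintype.card ((PP k).powersetCard (hh k)) := by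
    rw [Fintype.card_coe]
    simpa using two_pow_le hk
  obtain ⟨g⟩ := Function.Embedding.nonempty_of_card_le hcard
  set G : (Fin r → Fin 2) → Finset ℕ := fun c => (g c).1 with hG
  have hGinj : Function.Injective G := fun c c' h => g.injective (Subtype.ext h)
  have hGsub : ∀ c, G c ⊆ PP k := fun c => (Finset.mem_powersetCard.1 (g c).2).1
  have hGcard : ∀ c, (G c).card = hh k := fun c => (Finset.mem_powersetCard.1 (g c).2).2
  -- the sequences
  let chunk : ℕ → (ℕ → Fin 2) → (Fin r → Fin 2) := fun j b i => b (j * r + i)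
  let U : (ℕ → Fin 2) → ℕ → Bool := fun b n => decide (n % M ∈ G (chunk (n / M) b))
  have hUval : ∀ b j p, p ∈ PP k → (U b (j * M + p) = true ↔ p ∈ G (chunk j b)) := by
    intro b j p hp
    have hp1 : p < M := Finset.mem_range.1 (Finset.mem_filter.1 hp).1
    have e1 : (j * M + p) % M = p := by
      rw [Nat.add_comm, Nat.add_mul_mod_self_right, Nat.mod_eq_of_lt hp1]
    have e2 : (j * M + p) / M = j := by
      rw [Nat.add_comm, Nat.add_mul_div_right _ _ hM0, Nat.div_eq_of_lt hp1, Nat.zero_add]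
    simp only [U, e1, e2, decide_eq_true_eq]
  have hUT : ∀ b j, (PP k).filter (fun p => U b (j * M + p) = true) = G (chunk j b) := by
    intro b j
    ext p
    rw [Finset.mem_filter]
    constructor
    · rintro ⟨h1, h2⟩
      exact (hUval b j p h1).1 h2
    · intro h
      exact ⟨hGsub _ h, (hUval b j p (hGsub _ h)).2 h⟩
  have hUbal : ∀ b, Balanced k (U b) := by
    intro b j
    rw [hUT b j, hGcard]
  choose X hXE hX using fun b => hE (U b) (hUbal b)
  -- the decoding map
  let Th : Om → ℕ → Fin 2 := fun x m =>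
    (Function.invFun G (TT k x (m / r))) ⟨m % r, Nat.mod_lt _ hr0⟩
  have hTX : ∀ b j, TT k (X b) j = G (chunk j b) := by
    intro b j
    rw [← hUT b j]
    unfold TT
    apply Finset.filter_congr
    intro p hp
    have hp2 : ¬ k ∣ (j * M + p) + 1 := by
      intro hd
      apply (Finset.mem_filter.1 hp).2
      have : k ∣ j * M := Dvd.intro_left (j * k) (by rw [hM]; ring)
      rw [Nat.add_assoc] at hd
      exact (Nat.dvd_add_right this).1 hd
    rw [hX b _ hp2]
  have hThX : ∀ b, Th (X b) = b := by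
    intro b
    funext m
    simp only [Th]
    rw [hTX b, Function.leftInverse_invFun hGinj]
    simp only [chunk]
    congr 1
    rw [Nat.mul_comm]
    exact Nat.div_add_mod m r
  have hThagree : ∀ (x y : Om) (N : ℕ), (∀ i < N, x i = y i) →
      ∀ m < r * (N / M), Th x m = Th y m := by
    intro x y N h m hm
    have h1 : m / r < N / M := Nat.div_lt_of_lt_mul hm
    have h2 : TT k x (m / r) = TT k y (m / r) := by
      unfold TT
      apply Finset.filter_congr
      intro p hp
      have hp1 : p < M := Finset.mem_range.1 (Finset.mem_filter.1 hp).1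
      have h3 : m / r * M + p < N := by
        calc m / r * M + p < m / r * M + M := by omega
          _ = (m / r + 1) * M := by ring
          _ ≤ (N / M) * M := Nat.mul_le_mul_right _ h1
          _ ≤ N := Nat.div_mul_le_self _ _
      rw [h _ h3]
    simp only [Th, h2]
  -- the real valued map
  let Ps : Om → ℝ := fun x => Real.ofDigits (Th x)
  have hsurj : Ico (0 : ℝ) 1 ⊆ Ps '' E := by
    intro t ht
    refine ⟨X (Real.digits t 2), hXE _, ?_⟩
    simp only [Ps]
    rw [hThX, Real.ofDigits_digits (by norm_num) ht]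
  -- Hölder
  set s : ℝ≥0 := ⟨(r : ℝ) / M, by positivity⟩ with hs
  have hs0 : 0 < s := by
    rw [← NNReal.coe_pos]
    show (0 : ℝ) < (r : ℝ) / M
    positivity
  have hhol : HolderWith (2 ^ r) s Ps := by
    intro x y
    by_cases hxy : x = y
    · subst hxy
      simp
    obtain ⟨N, hN⟩ : ∃ N, firstDiff x y = N + 1 := ⟨firstDiff x y - 1, by
      have := (fd_mem hxy).1; omega⟩
    have hag : ∀ i < N, x i = y i := fun i hi => agree_of_lt_fd (by omega)
    have h1 := Real.abs_ofDigits_sub_ofDigits_le (x := Th x) (y := Th y) (hThagree x y N hag)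
    have h2 : |Ps x - Ps y| ≤ 2 ^ r * (rho x y) ^ ((r : ℝ) / M) := by
      refine h1.trans ?_
      rw [rho_of_ne hxy, hN, ← Real.rpow_natCast (1 / 2 : ℝ), ← Real.rpow_mul (by norm_num)]
      have e1 : (((2 : ℕ) : ℝ) ^ (r * (N / M)))⁻¹ = (1 / 2 : ℝ) ^ ((r * (N / M) : ℕ) : ℝ) := by
        rw [Real.rpow_natCast, one_div, inv_pow]; norm_num
      have e2 : (2 : ℝ) ^ r = (1 / 2 : ℝ) ^ (-(r : ℝ)) := by
        rw [Real.rpow_neg (by norm_num), Real.rpow_natCast, one_div, inv_pow, inv_inv]
      rw [e1, e2, ← Real.rpow_add (by norm_num)]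
      apply Real.rpow_le_rpow_of_exponent_ge (by norm_num) (by norm_num)
      have h3 : N + 1 ≤ (N / M) * M + M := by
        have := Nat.div_add_mod N M
        have h4 := Nat.mod_lt N hM0
        have h5 : M * (N / M) = (N / M) * M := Nat.mul_comm _ _
        omega
      have h3' : ((N : ℝ) + 1) ≤ ((N / M : ℕ) : ℝ) * M + M := by exact_mod_cast h3
      have hMR : (0 : ℝ) < M := by exact_mod_cast hM0
      have h6 : ((N : ℝ) + 1) * ((r : ℝ) / M) ≤ (((N / M : ℕ) : ℝ) * M + M) * ((r : ℝ) / M) :=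
        mul_le_mul_of_nonneg_right h3' (by positivity)
      have h7 : (((N / M : ℕ) : ℝ) * M + M) * ((r : ℝ) / M) = (r : ℝ) * ((N / M : ℕ) : ℝ) + r := by
        field_simp
      rw [h7] at h6
      push_cast
      linarith
    rw [edist_dist, edist_dist, Real.dist_eq]
    calc ENNReal.ofReal |Ps x - Ps y| ≤ ENNReal.ofReal (2 ^ r * (rho x y) ^ ((r : ℝ) / M)) :=
          ENNReal.ofReal_le_ofReal h2
      _ = _ := by
          rw [ENNReal.ofReal_mul (by positivity), ENNReal.ofReal_pow (by norm_num),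
            ← ENNReal.ofReal_rpow_of_nonneg (rho_nonneg x y) (by positivity)]
          have e3 : ((s : ℝ≥0) : ℝ) = (r : ℝ) / M := rfl
          rw [e3, dist_eq]
          simp
  have h1 : dimH (Ico (0 : ℝ) 1) = 1 := by
    have hne : (interior (Ico (0 : ℝ) 1)).Nonempty := by
      rw [interior_Ico]; exact ⟨1 / 2, by norm_num, by norm_num⟩
    rw [Real.dimH_of_nonempty_interior hne]
    simp
  have h2 : dimH (Ps '' E) ≤ dimH E / s := hhol.dimH_image_le hs0 E
  have h3 : (1 : ℝ≥0∞) ≤ dimH E / s := by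
    rw [← h1]
    exact (dimH_mono hsurj).trans h2
  have h4 : (s : ℝ≥0∞) ≤ dimH E := by
    have h5 := (ENNReal.le_div_iff_mul_le (Or.inl (by exact_mod_cast hs0.ne'))
      (Or.inl ENNReal.coe_ne_top)).1 h3
    simpa using h5
  refine le_trans (le_of_eq ?_) h4
  rw [← ENNReal.ofReal_coe_nnreal]
  congr 1
  show 1 - 3 / (k : ℝ) = (r : ℝ) / M
  have hrR : (r : ℝ) = (k : ℝ) * k - 3 * k := by
    rw [hr, Nat.cast_sub (by omega)]; push_cast; ring
  rw [hrR, hM]
  push_cast
  field_simp

end comb

/-! ### the analysis -/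

lemma abs_sg (b : Bool) : |sg b| = 1 := by
  unfold sg; split_ifs <;> simp

section analysis
variable {k : ℕ}

/-- the sum of the signs of a balanced sequence over the free positions of a window -/
lemma sum_sg_window (hk : 0 < k) {u : ℕ → Bool} (hu : Balanced k u) (j : ℕ) :
    ∑ p ∈ PP k, sg (u (j * (k * k) + p)) = 0 := by
  have h1 : ∀ p ∈ PP k, sg (u (j * (k * k) + p)) =
      2 * (if u (j * (k * k) + p) = true then (1 : ℝ) else 0) - 1 := by
    intro p _
    unfold sg
    split_ifs <;> norm_num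
  rw [Finset.sum_congr rfl h1, Finset.sum_sub_distrib, ← Finset.mul_sum, Finset.sum_boole, hu j]
  simp only [Finset.sum_const, nsmul_eq_mul, mul_one]
  rw [card_PP hk, ← two_hh]
  push_cast
  ring

/-- the free part of the series -/
def fr (k : ℕ) (u : ℕ → Bool) (a : ℕ → ℝ) (n : ℕ) : ℝ := if k ∣ n + 1 then 0 else sg (u n) * a n

lemma window_bound (hk : 0 < k) {u : ℕ → Bool} (hu : Balanced k u) {a : ℕ → ℝ} (ha : Antitone a)
    (j : ℕ) : |∑ p ∈ Finset.range (k * k), fr k u a (j * (k * k) + p)| ≤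
      (k * k : ℕ) * (a (j * (k * k)) - a ((j + 1) * (k * k))) := by
  have h1 : ∑ p ∈ Finset.range (k * k), fr k u a (j * (k * k) + p) =
      ∑ p ∈ PP k, sg (u (j * (k * k) + p)) *
        (a (j * (k * k) + p) - a ((j + 1) * (k * k))) := by
    have h2 : ∑ p ∈ PP k, sg (u (j * (k * k) + p)) *
        (a (j * (k * k) + p) - a ((j + 1) * (k * k))) =
        ∑ p ∈ PP k, sg (u (j * (k * k) + p)) * a (j * (k * k) + p) := by
      have h3 := sum_sg_window hk hu j
      simp only [mul_sub]
      rw [Finset.sum_sub_distrib, ← Finset.sum_mul, h3, zero_mul, sub_zero]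
    rw [h2]
    unfold PP
    rw [Finset.sum_filter]
    apply Finset.sum_congr rfl
    intro p _
    have h4 : k ∣ j * (k * k) + p + 1 ↔ k ∣ p + 1 := by
      rw [Nat.add_assoc]
      exact Nat.dvd_add_right (Dvd.intro_left (j * k) (by ring))
    unfold fr
    by_cases h5 : k ∣ p + 1
    · rw [if_pos (h4.2 h5), if_neg (by simpa using h5)]
    · rw [if_neg (fun h => h5 (h4.1 h)), if_pos h5]
  rw [h1]
  calc |∑ p ∈ PP k, sg (u (j * (k * k) + p)) * (a (j * (k * k) + p) - a ((j + 1) * (k * k)))|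
      ≤ ∑ p ∈ PP k, |sg (u (j * (k * k) + p)) *
        (a (j * (k * k) + p) - a ((j + 1) * (k * k)))| := Finset.abs_sum_le_sum_abs _ _
    _ ≤ ∑ _p ∈ PP k, (a (j * (k * k)) - a ((j + 1) * (k * k))) := by
        apply Finset.sum_le_sum
        intro p hp
        have hp1 : p < k * k := Finset.mem_range.1 (Finset.mem_filter.1 hp).1
        rw [abs_mul, abs_sg, one_mul]
        have h6 : a ((j + 1) * (k * k)) ≤ a (j * (k * k) + p) := ha (by
          rw [Nat.add_mul, Nat.one_mul]; omega)
        have h7 : a (j * (k * k) + p) ≤ a (j * (k * k)) := ha (by omega)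
        rw [abs_of_nonneg (by linarith)]
        linarith
    _ ≤ _ := by
        rw [Finset.sum_const, nsmul_eq_mul]
        apply mul_le_mul_of_nonneg_right
        · rw [card_PP hk]
          exact_mod_cast Nat.sub_le _ _
        · have : a ((j + 1) * (k * k)) ≤ a (j * (k * k)) := ha (by
            rw [Nat.add_mul, Nat.one_mul]; omega)
          linarith

lemma fr_tendsto (hk : 0 < k) {u : ℕ → Bool} (hu : Balanced k u) {a : ℕ → ℝ} (ha : Antitone a)
    (ha0 : Tendsto a atTop (𝓝 0)) :
    ∃ s : ℝ, Tendsto (fun N => ∑ n ∈ Finset.range N, fr k u a n) atTop (𝓝 s) := by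
  set M : ℕ := k * k with hM
  have hM0 : 0 < M := by positivity
  have hapos : ∀ n, 0 ≤ a n := fun n => ha.le_of_tendsto ha0 n
  set W : ℕ → ℝ := fun j => ∑ p ∈ Finset.range M, fr k u a (j * M + p) with hW
  have hWs : Summable W := by
    have hD : Summable (fun j : ℕ => (M : ℝ) * (a (j * M) - a ((j + 1) * M))) := by
      apply Summable.mul_left
      apply summable_of_sum_range_le (c := a 0)
      · intro j
        have : a ((j + 1) * M) ≤ a (j * M) := ha (by rw [Nat.add_mul, Nat.one_mul]; omega)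
        linarith
      · intro J
        have h1 := Finset.sum_range_sub' (fun j => a (j * M)) J
        rw [h1]
        simp only [Nat.zero_mul]
        linarith [hapos (J * M)]
    exact Summable.of_abs (Summable.of_nonneg_of_le (fun j => abs_nonneg _)
      (fun j => window_bound hk hu ha j) hD)
  have hWt := hWs.hasSum.tendsto_sum_nat
  have hblock : ∀ J, ∑ n ∈ Finset.range (J * M), fr k u a n = ∑ j ∈ Finset.range J, W j := by
    intro J
    induction J with
    | zero => simp
    | succ J ih =>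
      rw [Nat.add_mul, Nat.one_mul, Finset.sum_range_add, ih, Finset.sum_range_succ]
  have hdiv : Tendsto (fun N : ℕ => N / M) atTop atTop := Nat.tendsto_div_const_atTop hM0.ne'
  refine ⟨∑' j, W j, ?_⟩
  have hrem : Tendsto (fun N : ℕ => ∑ n ∈ Finset.range N, fr k u a n -
      ∑ j ∈ Finset.range (N / M), W j) atTop (𝓝 0) := by
    have hb : ∀ N : ℕ, |∑ n ∈ Finset.range N, fr k u a n -
        ∑ j ∈ Finset.range (N / M), W j| ≤ M * a ((N / M) * M) := by
      intro N
      have hN : N = (N / M) * M + N % M := by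
        rw [Nat.mul_comm]; exact (Nat.div_add_mod N M).symm
      have h1 : ∑ n ∈ Finset.range N, fr k u a n = ∑ j ∈ Finset.range (N / M), W j +
          ∑ p ∈ Finset.range (N % M), fr k u a ((N / M) * M + p) := by
        conv_lhs => rw [hN]
        rw [Finset.sum_range_add, hblock]
      rw [h1, add_sub_cancel_left]
      calc |∑ p ∈ Finset.range (N % M), fr k u a ((N / M) * M + p)|
          ≤ ∑ p ∈ Finset.range (N % M), |fr k u a ((N / M) * M + p)| :=
            Finset.abs_sum_le_sum_abs _ _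
        _ ≤ ∑ _p ∈ Finset.range (N % M), a ((N / M) * M) := by
            apply Finset.sum_le_sum
            intro p _
            have h2 : a ((N / M) * M + p) ≤ a ((N / M) * M) := ha (by omega)
            unfold fr
            split_ifs
            · rw [abs_zero]; exact hapos _
            · rw [abs_mul, abs_sg, one_mul, abs_of_nonneg (hapos _)]; exact h2
        _ ≤ _ := by
            rw [Finset.sum_const, Finset.card_range, nsmul_eq_mul]
            apply mul_le_mul_of_nonneg_right _ (hapos _)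
            exact_mod_cast (Nat.mod_lt N hM0).le
    apply squeeze_zero_norm (a := fun N : ℕ => (M : ℝ) * a ((N / M) * M))
    · intro N
      rw [Real.norm_eq_abs]
      exact hb N
    · have h2 : Tendsto (fun N : ℕ => (N / M) * M) atTop atTop :=
        hdiv.atTop_mul_const' hM0
      simpa using (ha0.comp h2).const_mul (M : ℝ)
  have := hrem.add (hWt.comp hdiv)
  simpa using this

/-- the reserved part of the series -/
lemma sum_reserved (k : ℕ) (g : ℕ → ℝ) (N : ℕ) :
    ∑ n ∈ Finset.range N, (if k ∣ n + 1 then g ((n + 1) / k - 1) else 0) =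
      ∑ j ∈ Finset.range (N / k), g j := by
  induction N with
  | zero => simp
  | succ N ih =>
    rw [Finset.sum_range_succ, ih, Nat.succ_div]
    split_ifs with h
    · rw [Finset.sum_range_succ]
      congr 2
    · simp

end analysis

/-! ### the statement -/

section statement
variable {ι : Type}

/-- the vector `a_{n+1} = ((n+1)^{-α_i})_i` -/
noncomputable def vec (α : ι → ℝ) (n : ℕ) : ι → ℝ := fun i => ((n + 1 : ℕ) : ℝ) ^ (-(α i))

/-- the series `∑ ε_n a_n` converges to `L` -/
def SumsTo (α : ι → ℝ) (ε : Om) (L : ι → ℝ) : Prop :=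
  Tendsto (fun N : ℕ => ∑ n ∈ Finset.range N, sg (ε n) • vec α n) atTop (𝓝 L)

/-- `S(a_n)`, the set of the sums of the convergent series `∑ ε_n a_n` -/
def SS (α : ι → ℝ) : Set (ι → ℝ) := {L | ∃ ε : Om, SumsTo α ε L}

/-- `E(L)`, the set of the sign sequences with `∑ ε_n a_n = L` -/
def EE (α : ι → ℝ) (L : ι → ℝ) : Set Om := {ε | SumsTo α ε L}

lemma sumsTo_iff {α : ι → ℝ} {ε : Om} {L : ι → ℝ} : SumsTo α ε L ↔
    ∀ i, Tendsto (fun N : ℕ => ∑ n ∈ Finset.range N, sg (ε n) * ((n + 1 : ℕ) : ℝ) ^ (-(α i)))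
      atTop (𝓝 (L i)) := by
  unfold SumsTo
  rw [tendsto_pi_nhds]
  apply forall_congr'
  intro i
  simp only [Finset.sum_apply, Pi.smul_apply, smul_eq_mul, vec]

theorem antitone_pow {α : ℝ} (hα : 0 < α) : Antitone (fun n : ℕ => ((n + 1 : ℕ) : ℝ) ^ (-α)) := by
  intro m n hmn
  apply Real.rpow_le_rpow_of_nonpos (by positivity) _ (by linarith)
  exact_mod_cast Nat.succ_le_succ hmn

theorem tendsto_pow {α : ℝ} (hα : 0 < α) :
    Tendsto (fun n : ℕ => ((n + 1 : ℕ) : ℝ) ^ (-α)) atTop (𝓝 0) :=
  (tendsto_rpow_neg_atTop hα).comp (tendsto_natCast_atTop_atTop.comp (tendsto_add_atTop_nat 1))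

theorem exists_ext {k : ℕ} (hk : 0 < k) {α : ι → ℝ} (hα : ∀ i, 0 < α i) (hS : SS α = univ)
    (L : ι → ℝ) (u : ℕ → Bool) (hu : Balanced k u) :
    ∃ x ∈ EE α L, ∀ n, ¬ k ∣ n + 1 → x n = u n := by
  choose s hs using fun i => fr_tendsto hk hu (antitone_pow (hα i)) (tendsto_pow (hα i))
  have hkR : (0 : ℝ) < k := by exact_mod_cast hk
  obtain ⟨η, hη⟩ : (fun i => (k : ℝ) ^ (α i) * (L i - s i)) ∈ SS α := by rw [hS]; trivial
  rw [sumsTo_iff] at hη
  refine ⟨fun n => if k ∣ n + 1 then η ((n + 1) / k - 1) else u n, ?_, ?_⟩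
  · refine sumsTo_iff.2 fun i => ?_
    have h1 : ∀ N : ℕ, ∑ n ∈ Finset.range N,
        sg (if k ∣ n + 1 then η ((n + 1) / k - 1) else u n) * ((n + 1 : ℕ) : ℝ) ^ (-(α i)) =
        ∑ n ∈ Finset.range N, fr k u (fun n : ℕ => ((n + 1 : ℕ) : ℝ) ^ (-(α i))) n +
        ∑ j ∈ Finset.range (N / k), (k : ℝ) ^ (-(α i)) *
          (sg (η j) * ((j + 1 : ℕ) : ℝ) ^ (-(α i))) := by
      intro N
      rw [← sum_reserved k, ← Finset.sum_add_distrib]
      apply Finset.sum_congr rfl
      intro n _
      unfold fr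
      by_cases h : k ∣ n + 1
      · simp only [if_pos h]
        obtain ⟨c, hc⟩ := h
        have hc0 : 0 < c := by
          rcases Nat.eq_zero_or_pos c with h0 | h0
          · subst h0; simp at hc
          · exact h0
        have e1 : (n + 1) / k = c := by rw [hc, Nat.mul_div_cancel_left _ hk]
        rw [e1, hc, Nat.sub_add_cancel hc0]
        push_cast
        rw [Real.mul_rpow hkR.le (by positivity)]
        ring
      · simp only [if_neg h]
        ring
    have h2 : Tendsto (fun N : ℕ => N / k) atTop atTop := Nat.tendsto_div_const_atTop hk.ne'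
    have h3 := (hs i).add (((hη i).comp h2).const_mul ((k : ℝ) ^ (-(α i))))
    have h4 : s i + (k : ℝ) ^ (-(α i)) * ((k : ℝ) ^ (α i) * (L i - s i)) = L i := by
      rw [← mul_assoc, ← Real.rpow_add hkR]
      simp
    rw [h4] at h3
    refine h3.congr fun N => ?_
    rw [h1 N, ← Finset.mul_sum]
    rfl
  · intro n hn
    simp [hn]

theorem main (α : ι → ℝ) (hα : ∀ i, 0 < α i) (hS : SS α = univ) (L : ι → ℝ) :
    dimH (EE α L) = 1 := by
  apply le_antisymm (dimH_le_one _)
  have h1 : ∀ k : ℕ, 4 ≤ k → ENNReal.ofReal (1 - 3 / k) ≤ dimH (EE α L) := fun k hk =>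
    lower_dim hk _ fun u hu => exists_ext (by omega) hα hS L u hu
  have h2 : Tendsto (fun k : ℕ => ENNReal.ofReal (1 - 3 / (k : ℝ))) atTop (𝓝 (ENNReal.ofReal 1)) := by
    apply ENNReal.tendsto_ofReal
    have h3 : Tendsto (fun k : ℕ => (3 : ℝ) / k) atTop (𝓝 0) := tendsto_const_div_atTop_nhds_zero_nat 3
    simpa using h3.const_sub 1
  rw [ENNReal.ofReal_one] at h2
  exact le_of_tendsto h2 (eventually_atTop.2 ⟨4, h1⟩)

end statement

end Pool.Agent.Q3.SgnDim
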